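import Pool.Agent.H46.Cur.Obstruction
import Pool.Agent.H61.Cur.Sus

/-!
For a natural number `d` there is a simplicial complex that is `d`-representable and
`(d + 1)`-convex union representable but not `d`-convex union representable if and only if
`d ≥ 2`.
-/

namespace Pool.Agent.Results.MP_ce7ff6_co.IffTwoLe

open Pool.Agent.H46.Cur Pool.Agent.H61.Cur

/-- There are a number `n` and a simplicial complex on `n` vertices that is the nerve of convex
sets in `d`-space, is the nerve of convex open sets in `(d + 1)`-space whose union is convex and
open, and is not the nerve of convex open sets in `d`-space whose union is convex and open, if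
and only if `d` is at least two. -/
theorem result (d : ℕ) : (∃ (n : ℕ) (Δ : Set (Finset (Fin n))), IsComplex Δ ∧
    Representable d Δ ∧ UnionRepresentable (d + 1) Δ ∧ ¬ UnionRepresentable d Δ) ↔ 2 ≤ d := by
  constructor
  · rintro ⟨n, Δ, h1, h2, h3, h4⟩
    by_contra hd
    have h5 : d = 0 ∨ d = 1 := by omega
    rcases h5 with rfl | rfl
    · exact h4 (zero_neg h2)
    · exact h4 (one_neg h1 h2 h3)
  · intro hd
    induction d, hd using Nat.le_induction with
    | base =>
      exact ⟨19, Delta, Delta_complex, Delta_representable, Delta_unionRepresentable,
        Delta_not_unionRepresentable⟩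
    | succ d _ ih =>
      obtain ⟨n, Δ, h1, h2, h3, h4⟩ := ih
      exact ⟨n + 2, sus Δ, sus_complex h1, sus_representable h1 h2, sus_unionRepresentable h1 h3,
        fun h => h4 (of_sus h1 h)⟩

end Pool.Agent.Results.MP_ce7ff6_co.IffTwoLe
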